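import Mathlib
import Pool.Agent.N990.EJ.Stm

/-!
# EJ/EXI (helper669, project of helper990): existence of an EA spin glass measure by compactness

Adapted from `Pool/Agent/N712/RT/EXI.lean` (helper712).
-/

open MeasureTheory ProbabilityTheory Filter Topology
open Pool.Agent.N988.EA
open Pool.Agent.N990.EJ
open scoped BoundedContinuousFunction

namespace Pool.Agent.N669.EJ

noncomputable section

variable {β : ℝ} {p : ℕ → Fin 2 × Bool}

/-- the state space -/
abbrev Om (p : ℕ → Fin 2 × Bool) : Type := (EdgeInf 2 p → ℝ) × (VInf p → Bool)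

/-- the weight -/
def wt (β : ℝ) (p : ℕ → Fin 2 × Bool) (n : ℕ) (s : Vert 2 n → Bool) (ω : Om p) : ℝ :=
  gw (fun e => β * cpl p ω.1 n e) (fun t => ω.2 (inc p n (.inl t))) s

/-- the replacement -/
def rp (p : ℕ → Fin 2 × Bool) (n : ℕ) (s : Vert 2 n → Bool) (ω : Om p) : Om p :=
  (ω.1, repl p n ω.2 s)

theorem GJ_eq (f : Om p → ℝ) (n : ℕ) (ω : Om p) :
    GJ β p n f ω = ∑ s : Vert 2 n → Bool, wt β p n s ω * f (rp p n s ω) := rfl

theorem rp_meas (h2 : S_GEO) (n : ℕ) (s : Vert 2 n → Bool) : Measurable (rp p n s) :=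
  measurable_fst.prodMk (((h2 p).2.2.2.2.2.2.2.2.1 n s).comp measurable_snd)

theorem rp_cont (h2 : S_GEO) (n : ℕ) (s : Vert 2 n → Bool) : Continuous (rp p n s) :=
  continuous_fst.prodMk (((h2 p).2.2.2.2.2.2.2.1 n s).comp continuous_snd)

theorem cw_meas (h2 : S_GEO) (β : ℝ) (n : ℕ) :
    Measurable fun w : EdgeInf 2 p → ℝ => (fun e : Edge 2 n => β * cpl p w n e) := by
  have h := (h2 p).2.2.2.2.2.2.2.2.2.2.1 n
  exact measurable_pi_lambda _ fun e => ((measurable_pi_apply e).comp h).const_mul β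

theorem cw_cont (h2 : S_GEO) (β : ℝ) (n : ℕ) :
    Continuous fun w : EdgeInf 2 p → ℝ => (fun e : Edge 2 n => β * cpl p w n e) := by
  have h := (h2 p).2.2.2.2.2.2.2.2.2.1 n
  exact continuous_pi fun e => continuous_const.mul ((continuous_apply e).comp h)

theorem wt_meas (h2 : S_GEO) (h3 : S_GWF) (n : ℕ) (s : Vert 2 n → Bool) :
    Measurable (wt β p n s) := by
  have hG : Measurable fun z : (Edge 2 n → ℝ) × (Bool → Bool) => gw z.1 z.2 s :=
    measurable_from_prod_countable_left fun τ => (h3 n).2.2.2 τ s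
  have h4 : Measurable fun ω : Om p => ((fun e : Edge 2 n => β * cpl p ω.1 n e),
      (fun t : Bool => ω.2 (inc p n (.inl t)))) :=
    ((cw_meas h2 β n).comp measurable_fst).prodMk
      ((measurable_pi_lambda _ fun t => measurable_pi_apply _).comp measurable_snd)
  exact hG.comp h4

theorem wt_cont (h2 : S_GEO) (h3 : S_GWF) (n : ℕ) (s : Vert 2 n → Bool) :
    Continuous (wt β p n s) := by
  have hG : Continuous fun z : (Edge 2 n → ℝ) × (Bool → Bool) => gw z.1 z.2 s :=
    continuous_prod_of_discrete_right.2 fun τ => (h3 n).2.2.1 τ s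
  have h4 : Continuous fun ω : Om p => ((fun e : Edge 2 n => β * cpl p ω.1 n e),
      (fun t : Bool => ω.2 (inc p n (.inl t)))) :=
    ((cw_cont h2 β n).comp continuous_fst).prodMk
      ((continuous_pi fun t => continuous_apply _).comp continuous_snd)
  exact hG.comp h4

theorem wt_nonneg (h3 : S_GWF) (n : ℕ) (s : Vert 2 n → Bool) (ω : Om p) : 0 ≤ wt β p n s ω :=
  (h3 n).1 _ _ _

theorem wt_sum (h3 : S_GWF) (n : ℕ) (ω : Om p) : ∑ s, wt β p n s ω = 1 := (h3 n).2.1 _ _

theorem wt_le (h3 : S_GWF) (n : ℕ) (s : Vert 2 n → Bool) (ω : Om p) : wt β p n s ω ≤ 1 := by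
  rw [← wt_sum (β := β) h3 n ω]
  exact Finset.single_le_sum (f := fun s => wt β p n s ω) (fun s _ => wt_nonneg h3 n s ω)
    (Finset.mem_univ s)

theorem GJ_meas (h2 : S_GEO) (h3 : S_GWF) (n : ℕ) {f : Om p → ℝ} (hf : Measurable f) :
    Measurable (GJ β p n f) :=
  Finset.measurable_sum _ fun s _ => (wt_meas h2 h3 n s).mul (hf.comp (rp_meas h2 n s))

theorem GJ_cont (h2 : S_GEO) (h3 : S_GWF) (n : ℕ) {f : Om p → ℝ} (hf : Continuous f) :
    Continuous (GJ β p n f) :=
  continuous_finsetSum _ fun s _ => (wt_cont h2 h3 n s).mul (hf.comp (rp_cont h2 n s))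

theorem GJ_bdd (h3 : S_GWF) (n : ℕ) {f : Om p → ℝ} {C : ℝ} (hf : ∀ ω, |f ω| ≤ C)
    (ω : Om p) : |GJ β p n f ω| ≤ C := by
  rw [GJ_eq]
  refine (Finset.abs_sum_le_sum_abs _ _).trans ?_
  calc ∑ s, |wt β p n s ω * f (rp p n s ω)| ≤ ∑ s, wt β p n s ω * C := by
        refine Finset.sum_le_sum fun s _ => ?_
        rw [abs_mul, abs_of_nonneg (wt_nonneg h3 n s ω)]
        exact mul_le_mul_of_nonneg_left (hf _) (wt_nonneg h3 n s ω)
    _ = C := by rw [← Finset.sum_mul, wt_sum h3 n ω, one_mul]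

theorem GJ_cons (h1 : S_CNS) (f : Om p → ℝ) (n k : ℕ) (ω : Om p) :
    GJ β p (n + 1 + k) (GJ β p n f) ω = GJ β p (n + 1 + k) f ω := by
  induction k generalizing ω with
  | zero => exact h1 β p n f ω
  | succ k ih =>
    have e1 := h1 β p (n + 1 + k) (GJ β p n f) ω
    have e2 := h1 β p (n + 1 + k) f ω
    have e3 : GJ β p (n + 1 + k) (GJ β p n f) = GJ β p (n + 1 + k) f := funext ih
    rw [e3] at e1
    exact e1.symm.trans e2

/-- the kernel applied to a measure -/
def KN (β : ℝ) (p : ℕ → Fin 2 × Bool) (n : ℕ) (m : Measure (Om p)) : Measure (Om p) :=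
  ∑ s : Vert 2 n → Bool, (m.withDensity fun ω => ENNReal.ofReal (wt β p n s ω)).map (rp p n s)

theorem part_fin (h3 : S_GWF) (n : ℕ) (m : Measure (Om p)) (h2 : S_GEO)
    [IsFiniteMeasure m] (s : Vert 2 n → Bool) :
    IsFiniteMeasure (m.withDensity fun ω => ENNReal.ofReal (wt β p n s ω)) := by
  refine isFiniteMeasure_withDensity_ofReal ?_
  exact (Integrable.of_bound (wt_meas h2 h3 n s).aestronglyMeasurable 1
    (ae_of_all _ fun ω => by
      rw [Real.norm_eq_abs, abs_of_nonneg (wt_nonneg h3 n s ω)]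
      exact wt_le h3 n s ω)).2

theorem KN_int (h2 : S_GEO) (h3 : S_GWF) (n : ℕ) (m : Measure (Om p)) [IsFiniteMeasure m]
    {f : Om p → ℝ} (hf : Measurable f) (hb : ∃ C, ∀ ω, |f ω| ≤ C) :
    ∫ ω, f ω ∂(KN β p n m) = ∫ ω, GJ β p n f ω ∂m := by
  obtain ⟨C, hC⟩ := hb
  have hI : ∀ s : Vert 2 n → Bool, Integrable (fun ω => wt β p n s ω * f (rp p n s ω)) m := by
    intro s
    refine Integrable.of_bound ((wt_meas h2 h3 n s).mul
      (hf.comp (rp_meas h2 n s))).aestronglyMeasurable C (ae_of_all _ fun ω => ?_)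
    rw [Real.norm_eq_abs, abs_mul, abs_of_nonneg (wt_nonneg h3 n s ω)]
    have h5 := mul_le_mul (wt_le (β := β) h3 n s ω) (hC (rp p n s ω)) (abs_nonneg _) zero_le_one
    linarith
  unfold KN
  rw [integral_finsetSum_measure]
  · simp only [GJ_eq]
    rw [integral_finsetSum _ fun s _ => hI s]
    refine Finset.sum_congr rfl fun s _ => ?_
    rw [integral_map (rp_meas h2 n s).aemeasurable hf.aestronglyMeasurable,
      integral_withDensity_eq_integral_toReal_smul
        (f := fun ω => ENNReal.ofReal (wt β p n s ω)) (wt_meas h2 h3 n s).ennreal_ofReal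
        (ae_of_all _ fun ω => ENNReal.ofReal_lt_top)]
    refine integral_congr_ae (ae_of_all _ fun ω => ?_)
    simp only [smul_eq_mul]
    rw [ENNReal.toReal_ofReal (wt_nonneg h3 n s ω)]
  · intro s _
    have := part_fin (β := β) h3 n m h2 s
    have : IsFiniteMeasure ((m.withDensity fun ω => ENNReal.ofReal (wt β p n s ω)).map
      (rp p n s)) := Measure.isFiniteMeasure_map _ _
    exact Integrable.of_bound hf.aestronglyMeasurable C (ae_of_all _ fun ω => hC ω)

theorem KN_prob (h2 : S_GEO) (h3 : S_GWF) (n : ℕ) (m : Measure (Om p))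
    [IsProbabilityMeasure m] : IsProbabilityMeasure (KN β p n m) := by
  have h := KN_int (β := β) h2 h3 n m (f := fun _ => 1) measurable_const ⟨1, fun _ => by simp⟩
  have e : ∀ ω, GJ β p n (fun _ : Om p => (1 : ℝ)) ω = 1 := by
    intro ω
    rw [GJ_eq]
    simp only [mul_one]
    exact wt_sum h3 n ω
  simp only [e] at h
  have h6 : m.real Set.univ = 1 := probReal_univ
  rw [integral_const, integral_const, smul_eq_mul, smul_eq_mul, mul_one, mul_one,
    h6] at h
  refine ⟨?_⟩
  have h5 : (KN β p n m Set.univ).toReal = 1 := h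
  exact (ENNReal.toReal_eq_one_iff _).1 h5

/-- the marginal -/
theorem KN_fst (h2 : S_GEO) (h3 : S_GWF) (n : ℕ) (m : Measure (Om p))
    [IsProbabilityMeasure m] : (KN β p n m).map Prod.fst = m.map Prod.fst := by
  have : Countable (EdgeInf 2 p) := (h2 p).2.1
  have := KN_prob (β := β) h2 h3 n m
  have : IsProbabilityMeasure ((KN β p n m).map Prod.fst) :=
    Measure.isProbabilityMeasure_map measurable_fst.aemeasurable
  have : IsProbabilityMeasure (m.map Prod.fst) :=
    Measure.isProbabilityMeasure_map measurable_fst.aemeasurable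
  refine ext_of_forall_integral_eq_of_IsFiniteMeasure fun g => ?_
  rw [integral_map measurable_fst.aemeasurable g.continuous.measurable.aestronglyMeasurable,
    integral_map measurable_fst.aemeasurable g.continuous.measurable.aestronglyMeasurable,
    KN_int (f := fun ω : Om p => g ω.1) h2 h3 n m (g.continuous.measurable.comp measurable_fst)
      ⟨_, fun ω => g.norm_coe_le_norm ω.1⟩]
  refine integral_congr_ae (ae_of_all _ fun ω => ?_)
  simp only
  rw [GJ_eq]
  show ∑ s, wt β p n s ω * g ω.1 = g ω.1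
  rw [← Finset.sum_mul, wt_sum h3 n ω, one_mul]

theorem t_exi (h1 : Pool.Agent.N990.EJ.S_CNS) (h2 : Pool.Agent.N990.EJ.S_GEO)
    (h3 : Pool.Agent.N990.EJ.S_GWF) : Pool.Agent.N990.EJ.S_EXI := by
  intro μ _ β p
  have : Countable (EdgeInf 2 p) := (h2 p).2.1
  have : Countable (VInf p) := (h2 p).1
  obtain ⟨P, hP⟩ : ∃ P : Measure (EdgeInf 2 p → ℝ),
    P = Measure.infinitePi fun _ : EdgeInf 2 p => μ := ⟨_, rfl⟩
  have : IsProbabilityMeasure P := by rw [hP]; infer_instance
  obtain ⟨m0, hm0⟩ : ∃ m0 : Measure (Om p), m0 = P.map (fun w => (w, fun _ => false)) := ⟨_, rfl⟩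
  have hmk : Measurable (fun w : EdgeInf 2 p → ℝ => ((w, fun _ => false) : Om p)) :=
    measurable_id.prodMk measurable_const
  have : IsProbabilityMeasure m0 := by
    rw [hm0]; exact Measure.isProbabilityMeasure_map hmk.aemeasurable
  have hm0f : m0.map Prod.fst = P := by
    rw [hm0, Measure.map_map measurable_fst hmk]
    exact Measure.map_id
  have hpr : ∀ N, IsProbabilityMeasure (KN β p N m0) := fun N => KN_prob h2 h3 N m0
  let PM : ℕ → ProbabilityMeasure (Om p) := fun N => ⟨KN β p N m0, hpr N⟩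
  -- tightness
  have htight : IsTightMeasureSet {((x : ProbabilityMeasure (Om p)) : Measure (Om p)) |
      x ∈ Set.range PM} := by
    rw [isTightMeasureSet_iff_exists_isCompact_measure_compl_le]
    intro ε hε
    have hPt : IsTightMeasureSet {P} := isTightMeasureSet_singleton
    obtain ⟨K, hK, hKε⟩ := isTightMeasureSet_iff_exists_isCompact_measure_compl_le.1 hPt ε hε
    refine ⟨K ×ˢ Set.univ, hK.prod isCompact_univ, ?_⟩
    rintro _ ⟨x, ⟨N, rfl⟩, rfl⟩
    have e1 : ((K ×ˢ (Set.univ : Set (VInf p → Bool)))ᶜ : Set (Om p)) = Prod.fst ⁻¹' Kᶜ := by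
      ext ω; simp
    have e2 : (KN β p N m0) (Prod.fst ⁻¹' Kᶜ) = P Kᶜ := by
      rw [← Measure.map_apply measurable_fst hK.measurableSet.compl, KN_fst h2 h3 N m0, hm0f]
    show (KN β p N m0) (K ×ˢ Set.univ)ᶜ ≤ ε
    rw [e1, e2]
    exact hKε P rfl
  have hcomp := isCompact_closure_of_isTightMeasureSet htight
  let F : Ultrafilter (ProbabilityMeasure (Om p)) := (hyperfilter ℕ).map PM
  obtain ⟨m, -, hm⟩ := hcomp.ultrafilter_le_nhds F (by
    refine le_principal_iff.2 ?_
    exact Filter.mem_of_superset (show Set.range PM ∈ (F : Filter _) from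
      Filter.mem_map.2 (Filter.univ_mem' fun N => ⟨N, rfl⟩)) subset_closure)
  have hT : Tendsto PM (hyperfilter ℕ : Filter ℕ) (𝓝 m) := hm
  have key := ProbabilityMeasure.tendsto_iff_forall_integral_tendsto.1 hT
  have hinv : ∀ (n : ℕ) (f : Om p →ᵇ ℝ), ∫ ω, f ω ∂(m : Measure (Om p)) =
      ∫ ω, GJ β p n f ω ∂(m : Measure (Om p)) := by
    intro n f
    have hb : ∀ ω, |f ω| ≤ ‖f‖ := fun ω => f.norm_coe_le_norm ω
    obtain ⟨g, hg⟩ : ∃ g : Om p →ᵇ ℝ, ∀ ω, g ω = GJ β p n f ω :=
      ⟨BoundedContinuousFunction.ofNormedAddCommGroup (GJ β p n f)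
        (GJ_cont h2 h3 n f.continuous) ‖f‖ (fun ω => GJ_bdd h3 n hb ω), fun _ => rfl⟩
    have e0 : ∫ ω, GJ β p n f ω ∂(m : Measure (Om p)) = ∫ ω, g ω ∂(m : Measure (Om p)) := by
      simp only [hg]
    rw [e0]
    refine tendsto_nhds_unique_of_eventuallyEq (key f) (key g) ?_
    refine Nat.hyperfilter_le_atTop (eventually_atTop.2 ⟨n + 1, fun N hN => ?_⟩)
    obtain ⟨k, rfl⟩ := Nat.exists_eq_add_of_le hN
    show ∫ ω, f ω ∂(KN β p (n + 1 + k) m0) = ∫ ω, g ω ∂(KN β p (n + 1 + k) m0)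
    simp only [hg]
    rw [KN_int h2 h3 _ m0 f.continuous.measurable ⟨_, hb⟩,
      KN_int h2 h3 _ m0 (GJ_meas h2 h3 n f.continuous.measurable)
        ⟨_, fun ω => GJ_bdd h3 n hb ω⟩]
    exact (integral_congr_ae (ae_of_all _ fun ω => GJ_cons h1 f n k ω)).symm
  refine ⟨(m : Measure (Om p)), ?_, ?_⟩
  · rw [← hP]
    have : IsProbabilityMeasure ((m : Measure (Om p)).map Prod.fst) :=
      Measure.isProbabilityMeasure_map measurable_fst.aemeasurable
    refine ext_of_forall_integral_eq_of_IsFiniteMeasure fun g => ?_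
    rw [integral_map measurable_fst.aemeasurable g.continuous.measurable.aestronglyMeasurable]
    obtain ⟨g', hg'⟩ : ∃ g' : Om p →ᵇ ℝ, ∀ ω, g' ω = g ω.1 :=
      ⟨BoundedContinuousFunction.ofNormedAddCommGroup (fun ω : Om p => g ω.1)
        (g.continuous.comp continuous_fst) ‖g‖ (fun ω => g.norm_coe_le_norm ω.1), fun _ => rfl⟩
    have k1 := key g'
    have k2 : ∀ N, ∫ ω, g' ω ∂(PM N : Measure (Om p)) = ∫ w, g w ∂P := by
      intro N
      have e1 : (KN β p N m0).map Prod.fst = P := by rw [KN_fst h2 h3 N m0, hm0f]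
      show ∫ ω, g' ω ∂(KN β p N m0) = _
      simp only [hg']
      rw [← e1, integral_map measurable_fst.aemeasurable
        g.continuous.measurable.aestronglyMeasurable]
    simp only [k2] at k1
    have k3 := tendsto_nhds_unique k1 tendsto_const_nhds
    simp only [hg'] at k3
    exact k3
  · intro n f hf hb
    have := KN_prob (β := β) h2 h3 n (m : Measure (Om p))
    have e : (m : Measure (Om p)) = KN β p n (m : Measure (Om p)) := by
      refine ext_of_forall_integral_eq_of_IsFiniteMeasure fun g => ?_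
      rw [KN_int h2 h3 n _ g.continuous.measurable ⟨_, g.norm_coe_le_norm⟩]
      exact hinv n g
    have e2 := KN_int (β := β) h2 h3 n (m : Measure (Om p)) hf hb
    rw [← e] at e2
    exact e2

end

end Pool.Agent.N669.EJ
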